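import Pool.Agent.H85.Rho.Defs

/-!
# RHO, module B: mass of the `w`-smooth numbers
-/

set_option autoImplicit false

open Finset Real

namespace Pool.Agent.H85.Rho

/-! ### Counting smooth numbers -/

theorem Sm_card_nat (w M : ℕ) : (Sm w M).card ≤ (Nat.log 2 M + 1) ^ w := by
  have h1 : (Sm w M).card ≤ (Fintype.piFinset (fun _ : Fin w => range (Nat.log 2 M + 1))).card := by
    refine card_le_card_of_injOn (fun m => fun i : Fin w => m.factorization (i + 1)) ?_ ?_
    · intro m hm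
      rw [mem_coe, mem_Sm] at hm
      rw [mem_coe, Fintype.mem_piFinset]
      intro i
      rw [mem_range]
      change m.factorization (i + 1) < Nat.log 2 M + 1
      by_cases hp : ((i : ℕ) + 1).Prime
      · have h2 : 2 ^ m.factorization (i + 1) ≤ M := by
          calc 2 ^ m.factorization (i + 1) ≤ ((i : ℕ) + 1) ^ m.factorization (i + 1) :=
                Nat.pow_le_pow_left hp.two_le _
            _ ≤ m := Nat.le_of_dvd (by omega) (Nat.ordProj_dvd m _)
            _ ≤ M := hm.1.2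
        have := Nat.le_log_of_pow_le (by norm_num) h2
        omega
      · rw [Nat.factorization_eq_zero_of_not_prime _ hp]
        omega
    · intro m hm m' hm' h
      rw [mem_coe, mem_Sm] at hm hm'
      refine Nat.eq_of_factorization_eq (by omega) (by omega) fun p => ?_
      by_cases hp : p.Prime
      · by_cases hpw : p ≤ w
        · have h2 := congrFun h ⟨p - 1, by have := hp.pos; omega⟩
          simp only at h2
          have h3 : p - 1 + 1 = p := by have := hp.pos; omega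
          rw [h3] at h2
          exact h2
        · rw [Nat.factorization_eq_zero_of_not_dvd (fun hd => hpw (hm.2 p hp hd)),
            Nat.factorization_eq_zero_of_not_dvd (fun hd => hpw (hm'.2 p hp hd))]
      · rw [Nat.factorization_eq_zero_of_not_prime _ hp,
          Nat.factorization_eq_zero_of_not_prime _ hp]
  rwa [Fintype.card_piFinset, prod_const, card_range, card_univ, Fintype.card_fin] at h1

theorem Sm_card (w : ℕ) : ∃ C : ℝ, 0 < C ∧ ∀ M : ℕ, 2 ≤ M →
    ((Sm w M).card : ℝ) ≤ C * (Real.log M) ^ w := by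
  have hl2 : 0 < Real.log 2 := Real.log_pos (by norm_num)
  refine ⟨(2 / Real.log 2) ^ w, by positivity, fun M hM => ?_⟩
  have h1 : ((Sm w M).card : ℝ) ≤ ((Nat.log 2 M : ℝ) + 1) ^ w := by
    exact_mod_cast Sm_card_nat w M
  refine h1.trans ?_
  rw [← mul_pow]
  refine pow_le_pow_left₀ (by positivity) ?_ w
  have hM' : (2:ℝ) ≤ M := by exact_mod_cast hM
  have h2 : (Nat.log 2 M : ℝ) * Real.log 2 ≤ Real.log M := by
    rw [← Real.log_pow]
    apply Real.log_le_log (by positivity)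
    exact_mod_cast Nat.pow_log_le_self 2 (by omega : M ≠ 0)
  have h3 : Real.log 2 ≤ Real.log M := Real.log_le_log (by norm_num) hM'
  have h4 : ((Nat.log 2 M : ℝ) + 1) * Real.log 2 ≤ 2 * Real.log M := by linarith
  rw [div_mul_eq_mul_div, le_div_iff₀ hl2]
  exact h4

/-! ### Boxes of exponents -/

/-- The primes up to `w` as a type. -/
abbrev PT (w : ℕ) := {p // p ∈ pr 0 w}

/-- The number with given exponents. -/
def mk (w : ℕ) (e : PT w → ℕ) : ℕ := ∏ i : PT w, (i : ℕ) ^ e i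

/-- The box of exponents. -/
def Bx (w R : ℕ) : Finset (PT w → ℕ) := Fintype.piFinset (fun _ => range (R + 1))

variable {w : ℕ}

theorem PT_prime (i : PT w) : (i : ℕ).Prime := (mem_pr.mp i.2).2

theorem PT_le (i : PT w) : (i : ℕ) ≤ w := (mem_pr.mp i.2).1.2

theorem mk_pos (e : PT w → ℕ) : 0 < mk w e :=
  prod_pos fun i _ => pow_pos (PT_prime i).pos _

theorem mk_fact (e : PT w → ℕ) (i : PT w) : (mk w e).factorization i = e i := by
  unfold mk
  rw [Nat.factorization_prod_apply (fun j _ => pow_ne_zero _ (PT_prime j).ne_zero)]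
  rw [sum_eq_single i]
  · rw [(PT_prime i).factorization_pow, Finsupp.single_eq_same]
  · intro j _ hj
    rw [(PT_prime j).factorization_pow, Finsupp.single_eq_of_ne]
    exact fun h => hj (Subtype.ext h.symm)
  · intro h
    exact absurd (mem_univ i) h

theorem mk_inj : Function.Injective (mk w) := by
  intro e e' h
  funext i
  rw [← mk_fact e i, h, mk_fact]

theorem mk_smooth (e : PT w → ℕ) (p : ℕ) (hp : p.Prime) (hd : p ∣ mk w e) :
    ∃ i : PT w, (i : ℕ) = p := by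
  unfold mk at hd
  obtain ⟨i, _, hi⟩ := (Prime.dvd_finsetProd_iff hp.prime _).mp hd
  exact ⟨i, ((Nat.prime_dvd_prime_iff_eq hp (PT_prime i)).mp (hp.dvd_of_dvd_pow hi)).symm⟩

theorem mk_dvd (e : PT w → ℕ) (i : PT w) : (i : ℕ) ∣ mk w e ↔ e i ≠ 0 := by
  rw [← mk_fact e i]
  rw [Ne, Nat.factorization_eq_zero_iff]
  have h1 := PT_prime i
  have h2 := (mk_pos e).ne'
  tauto

theorem mk_mem (e : PT w → ℕ) (M : ℕ) (h : mk w e ≤ M) : mk w e ∈ Sm w M := by
  rw [mem_Sm]
  refine ⟨⟨mk_pos e, h⟩, fun p hp hd => ?_⟩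
  obtain ⟨i, hi⟩ := mk_smooth e p hp hd
  rw [← hi]
  exact PT_le i

/-- The local weight. -/
noncomputable def hh (p k : ℕ) : ℝ := if k = 0 then ((p:ℝ) - 2) / (p - 1) else ((p:ℝ) ^ k)⁻¹

theorem hh_nonneg {p : ℕ} (hp : p.Prime) (k : ℕ) : 0 ≤ hh p k := by
  have : (2:ℝ) ≤ p := by exact_mod_cast hp.two_le
  unfold hh
  split_ifs
  · exact div_nonneg (by linarith) (by linarith)
  · positivity

theorem fw_nonneg (w m : ℕ) : 0 ≤ fw w m := by
  unfold fw
  refine prod_nonneg fun p hp => ?_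
  rw [mem_filter, mem_pr] at hp
  have : (2:ℝ) ≤ p := by exact_mod_cast hp.1.2.two_le
  exact div_nonneg (by linarith) (by linarith)

theorem fw_le_one (w m : ℕ) : fw w m ≤ 1 := by
  unfold fw
  refine prod_le_one ?_ ?_
  · intro p hp
    rw [mem_filter, mem_pr] at hp
    have : (2:ℝ) ≤ p := by exact_mod_cast hp.1.2.two_le
    exact div_nonneg (by linarith) (by linarith)
  · intro p hp
    rw [mem_filter, mem_pr] at hp
    have : (2:ℝ) ≤ p := by exact_mod_cast hp.1.2.two_le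
    rw [div_le_one (by linarith)]
    linarith

theorem fw_mk (e : PT w → ℕ) : fw w (mk w e) / (mk w e : ℝ) = ∏ i : PT w, hh i (e i) := by
  have h1 : fw w (mk w e) = ∏ i : PT w, (if e i = 0 then ((i:ℝ) - 2) / (i - 1) else 1) := by
    unfold fw
    rw [prod_filter, ← prod_coe_sort (pr 0 w)
      (fun p => if ¬ p ∣ mk w e then ((p:ℝ) - 2) / (p - 1) else 1)]
    refine prod_congr rfl fun i _ => ?_
    simp only [mk_dvd, not_not, Ne]
  have h2 : (mk w e : ℝ) = ∏ i : PT w, (i:ℝ) ^ e i := by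
    unfold mk
    push_cast
    rfl
  rw [h1, h2, ← prod_div_distrib]
  refine prod_congr rfl fun i _ => ?_
  unfold hh
  split_ifs with h
  · rw [h, pow_zero, div_one]
  · rw [one_div]

theorem sum_hh {p : ℕ} (hp : p.Prime) (R : ℕ) :
    ∑ k ∈ range (R + 1), hh p k = 1 - ((p:ℝ) ^ R)⁻¹ / (p - 1) := by
  have hp2 : (2:ℝ) ≤ p := by exact_mod_cast hp.two_le
  have hp0 : (p:ℝ) ≠ 0 := by linarith
  have hp1 : (p:ℝ) - 1 ≠ 0 := by linarith
  induction R with
  | zero =>
    rw [zero_add, range_one, sum_singleton, pow_zero, inv_one]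
    unfold hh
    rw [if_pos rfl]
    field_simp
    ring
  | succ R ih =>
    rw [sum_range_succ, ih]
    unfold hh
    rw [if_neg (Nat.succ_ne_zero R), pow_succ]
    have hpR : (p:ℝ) ^ R ≠ 0 := pow_ne_zero _ hp0
    field_simp
    ring

theorem sum_hh_ge {p : ℕ} (hp : p.Prime) (R : ℕ) :
    1 - ((2:ℝ) ^ R)⁻¹ ≤ ∑ k ∈ range (R + 1), hh p k := by
  rw [sum_hh hp R]
  have hp2 : (2:ℝ) ≤ p := by exact_mod_cast hp.two_le
  have h1 : ((p:ℝ) ^ R)⁻¹ / (p - 1) ≤ ((2:ℝ) ^ R)⁻¹ := by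
    calc ((p:ℝ) ^ R)⁻¹ / (p - 1) ≤ ((p:ℝ) ^ R)⁻¹ / 1 :=
          div_le_div_of_nonneg_left (by positivity) one_pos (by linarith)
      _ = ((p:ℝ) ^ R)⁻¹ := div_one _
      _ ≤ ((2:ℝ) ^ R)⁻¹ := by
          apply inv_anti₀ (by positivity)
          exact pow_le_pow_left₀ (by norm_num) hp2 R
  linarith

theorem card_PT (w : ℕ) : Fintype.card (PT w) ≤ w := by
  rw [Fintype.card_coe]
  unfold pr
  refine (card_filter_le _ _).trans ?_
  rw [Nat.card_Ioc]
  omega

theorem bern (x : ℝ) (hx0 : 0 ≤ x) (hx1 : x ≤ 1) {ι : Type*} (s : Finset ι) (f : ι → ℝ)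
    (hf : ∀ i ∈ s, 1 - x ≤ f i) (n : ℕ) (hn : s.card ≤ n) : 1 - n * x ≤ ∏ i ∈ s, f i := by
  have h1 : ∏ i ∈ s, (1 - x) ≤ ∏ i ∈ s, f i :=
    prod_le_prod (fun _ _ => by linarith) hf
  refine le_trans ?_ h1
  rw [prod_const]
  have h2 := one_add_mul_le_pow (a := -x) (by linarith) s.card
  have h3 : (s.card : ℝ) * x ≤ n * x := mul_le_mul_of_nonneg_right (by exact_mod_cast hn) hx0
  have h4 : (1 + -x) ^ s.card = (1 - x) ^ s.card := by ring
  rw [h4] at h2
  linarith

theorem box_mass (w R : ℕ) :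
    1 - w * ((2:ℝ) ^ R)⁻¹ ≤ ∑ e ∈ Bx w R, fw w (mk w e) / (mk w e : ℝ) := by
  simp_rw [fw_mk]
  unfold Bx
  rw [← prod_univ_sum (fun _ : PT w => range (R + 1)) (fun i k => hh i k)]
  refine bern _ (by positivity) ?_ univ _ (fun i _ => sum_hh_ge (PT_prime i) R) w ?_
  · exact inv_le_one_of_one_le₀ (one_le_pow₀ (by norm_num))
  · exact card_PT w

/-! ### The tail -/

theorem tail_block (w : ℕ) (C : ℝ) (hC : ∀ M : ℕ, 2 ≤ M →
    ((Sm w M).card : ℝ) ≤ C * (Real.log M) ^ w) (M : ℕ) (hM : 2 ≤ M) (j : ℕ) :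
    ∑ m ∈ (Sm w (M * 2 ^ (j + 1))).filter (fun m => M * 2 ^ j < m), (1:ℝ) / m ≤
      C * (Real.log M) ^ w / M * (((j:ℝ) + 2) ^ w / 2 ^ j) := by
  have hM' : (2:ℝ) ≤ M := by exact_mod_cast hM
  have hl2 : 0 < Real.log 2 := Real.log_pos (by norm_num)
  have hlM : Real.log 2 ≤ Real.log M := Real.log_le_log (by norm_num) hM'
  have hM0 : (0:ℝ) < M := by linarith
  have hpos : (0:ℝ) < (M:ℝ) * 2 ^ j := by positivity
  have h1 : ∀ m ∈ (Sm w (M * 2 ^ (j + 1))).filter (fun m => M * 2 ^ j < m),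
      (1:ℝ) / m ≤ 1 / (M * 2 ^ j) := by
    intro m hm
    rw [mem_filter] at hm
    have h2 : ((M * 2 ^ j : ℕ) : ℝ) < m := by exact_mod_cast hm.2
    push_cast at h2
    exact one_div_le_one_div_of_le hpos h2.le
  refine (sum_le_card_nsmul _ _ _ h1).trans ?_
  rw [nsmul_eq_mul]
  have h3 : (((Sm w (M * 2 ^ (j + 1))).filter (fun m => M * 2 ^ j < m)).card : ℝ) ≤
      C * (Real.log M * ((j:ℝ) + 2)) ^ w := by
    have h4 : (((Sm w (M * 2 ^ (j + 1))).filter (fun m => M * 2 ^ j < m)).card : ℝ) ≤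
        ((Sm w (M * 2 ^ (j + 1))).card : ℝ) := by exact_mod_cast card_filter_le _ _
    have h5 := hC (M * 2 ^ (j + 1)) (by
      have : 1 ≤ 2 ^ (j + 1) := Nat.one_le_two_pow
      nlinarith)
    have hC0 : 0 ≤ C := by
      have h6 := hC 2 le_rfl
      have h7 : 0 < (Real.log ((2:ℕ):ℝ)) ^ w := by
        apply pow_pos
        exact_mod_cast hl2
      by_contra hneg
      push Not at hneg
      have h8 : C * (Real.log ((2:ℕ):ℝ)) ^ w < 0 := mul_neg_of_neg_of_pos hneg h7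
      have h9 : (0:ℝ) ≤ ((Sm w 2).card : ℝ) := by positivity
      linarith
    refine h4.trans (h5.trans (mul_le_mul_of_nonneg_left ?_ hC0))
    refine pow_le_pow_left₀ (Real.log_nonneg ?_) ?_ w
    · have : 1 ≤ M * 2 ^ (j + 1) := Nat.mul_pos (by omega) (by positivity)
      exact_mod_cast this
    · push_cast
      rw [Real.log_mul (by linarith) (by positivity), Real.log_pow]
      push_cast
      nlinarith
  calc (((Sm w (M * 2 ^ (j + 1))).filter (fun m => M * 2 ^ j < m)).card : ℝ) *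
        (1 / (M * 2 ^ j)) ≤ C * (Real.log M * ((j:ℝ) + 2)) ^ w * (1 / (M * 2 ^ j)) :=
        mul_le_mul_of_nonneg_right h3 (by positivity)
    _ = C * (Real.log M) ^ w / M * (((j:ℝ) + 2) ^ w / 2 ^ j) := by
        rw [mul_pow]
        field_simp

theorem summable_tail (w : ℕ) : Summable (fun j : ℕ => ((j:ℝ) + 2) ^ w / 2 ^ j) := by
  have h1 : Summable (fun j : ℕ => ((j:ℝ)) ^ w * (1 / 2) ^ j) :=
    summable_pow_mul_geometric_of_norm_lt_one w (by norm_num)
  have h2 := (summable_nat_add_iff (f := fun j : ℕ => ((j:ℝ)) ^ w * (1 / 2) ^ j) 2).mpr h1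
  have h3 := h2.mul_left 4
  refine h3.congr fun j => ?_
  push_cast
  rw [pow_add]
  have : ((1:ℝ) / 2) ^ j = 1 / 2 ^ j := by rw [div_pow, one_pow]
  rw [this]
  ring

theorem tail (w : ℕ) : ∃ C : ℝ, 0 < C ∧ ∀ M : ℕ, 2 ≤ M → ∀ J : ℕ,
    ∑ m ∈ (Sm w (M * 2 ^ J)).filter (fun m => M < m), (1:ℝ) / m ≤ C * (Real.log M) ^ w / M := by
  obtain ⟨C, hC0, hC⟩ := Sm_card w
  have hs := summable_tail w
  set T := ∑' j : ℕ, ((j:ℝ) + 2) ^ w / 2 ^ j with hT
  have hT0 : 0 < T := by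
    have h1 : (((0:ℕ):ℝ) + 2) ^ w / 2 ^ 0 ≤ T := hs.le_tsum 0 (fun _ _ => by positivity)
    refine lt_of_lt_of_le ?_ h1
    positivity
  refine ⟨C * T, by positivity, fun M hM J => ?_⟩
  have hM' : (2:ℝ) ≤ M := by exact_mod_cast hM
  have hlM : 0 < Real.log M := Real.log_pos (by linarith)
  have key : ∀ J : ℕ, ∑ m ∈ (Sm w (M * 2 ^ J)).filter (fun m => M < m), (1:ℝ) / m ≤
      ∑ j ∈ range J, C * (Real.log M) ^ w / M * (((j:ℝ) + 2) ^ w / 2 ^ j) := by
    intro J
    induction J with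
    | zero =>
      rw [range_zero, sum_empty, pow_zero, mul_one]
      have : (Sm w M).filter (fun m => M < m) = ∅ := by
        rw [filter_eq_empty_iff]
        intro m hm
        have := (mem_Sm.mp hm).1.2
        omega
      rw [this, sum_empty]
    | succ J ih =>
      rw [sum_range_succ]
      have hsub : (Sm w (M * 2 ^ (J + 1))).filter (fun m => M < m) ⊆
          (Sm w (M * 2 ^ J)).filter (fun m => M < m) ∪
          (Sm w (M * 2 ^ (J + 1))).filter (fun m => M * 2 ^ J < m) := by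
        intro m hm
        rw [mem_filter, mem_Sm] at hm
        rw [mem_union, mem_filter, mem_filter, mem_Sm, mem_Sm]
        by_cases h : m ≤ M * 2 ^ J
        · exact Or.inl ⟨⟨⟨hm.1.1.1, h⟩, hm.1.2⟩, hm.2⟩
        · exact Or.inr ⟨hm.1, by omega⟩
      calc _ ≤ ∑ m ∈ (Sm w (M * 2 ^ J)).filter (fun m => M < m) ∪
          (Sm w (M * 2 ^ (J + 1))).filter (fun m => M * 2 ^ J < m), (1:ℝ) / m :=
            sum_le_sum_of_subset_of_nonneg hsub (fun _ _ _ => by positivity)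
        _ ≤ ∑ m ∈ (Sm w (M * 2 ^ J)).filter (fun m => M < m), (1:ℝ) / m +
          ∑ m ∈ (Sm w (M * 2 ^ (J + 1))).filter (fun m => M * 2 ^ J < m), (1:ℝ) / m := by
            rw [← sum_union_inter]
            have : 0 ≤ ∑ m ∈ (Sm w (M * 2 ^ J)).filter (fun m => M < m) ∩
              (Sm w (M * 2 ^ (J + 1))).filter (fun m => M * 2 ^ J < m), (1:ℝ) / m :=
              sum_nonneg (fun _ _ => by positivity)
            linarith
        _ ≤ _ := add_le_add ih (tail_block w C hC M hM J)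
  refine (key J).trans ?_
  rw [← mul_sum]
  have h1 : ∑ j ∈ range J, ((j:ℝ) + 2) ^ w / 2 ^ j ≤ T :=
    hs.sum_le_tsum _ (fun _ _ => by positivity)
  calc C * (Real.log M) ^ w / M * ∑ j ∈ range J, ((j:ℝ) + 2) ^ w / 2 ^ j
      ≤ C * (Real.log M) ^ w / M * T := mul_le_mul_of_nonneg_left h1 (by positivity)
    _ = C * T * (Real.log M) ^ w / M := by ring

theorem mass_lower (w : ℕ) : ∃ C : ℝ, 0 < C ∧ ∀ M : ℕ, 2 ≤ M →
    1 - C * (Real.log M) ^ w / M ≤ ∑ m ∈ Sm w M, fw w m / m := by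
  obtain ⟨C, hC0, hC⟩ := tail w
  refine ⟨C, hC0, fun M hM => ?_⟩
  have key : ∀ R : ℕ, 1 - C * (Real.log M) ^ w / M ≤
      ∑ m ∈ Sm w M, fw w m / m + w * ((2:ℝ) ^ R)⁻¹ := by
    intro R
    have hb := box_mass w R
    -- a bound for all members of the box
    obtain ⟨J, hJ⟩ : ∃ J : ℕ, ∀ e ∈ Bx w R, mk w e ≤ M * 2 ^ J := by
      refine ⟨∑ e ∈ Bx w R, mk w e, fun e he => ?_⟩
      have h1 : mk w e ≤ ∑ e ∈ Bx w R, mk w e := single_le_sum (fun _ _ => Nat.zero_le _) he
      have h2 : ∑ e ∈ Bx w R, mk w e < 2 ^ (∑ e ∈ Bx w R, mk w e) := Nat.lt_two_pow_self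
      have h3 : 2 ^ (∑ e ∈ Bx w R, mk w e) ≤ M * 2 ^ (∑ e ∈ Bx w R, mk w e) :=
        Nat.le_mul_of_pos_left _ (by omega)
      omega
    have hsplit : ∑ e ∈ Bx w R, fw w (mk w e) / (mk w e : ℝ) ≤
        ∑ m ∈ Sm w M, fw w m / m +
        ∑ m ∈ (Sm w (M * 2 ^ J)).filter (fun m => M < m), (1:ℝ) / m := by
      rw [← sum_filter_add_sum_filter_not (Bx w R) (fun e => mk w e ≤ M)]
      refine add_le_add ?_ ?_
      · rw [← sum_image (f := fun m : ℕ => fw w m / (m:ℝ)) (g := mk w)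
          (fun e _ e' _ h => mk_inj h)]
        refine sum_le_sum_of_subset_of_nonneg ?_ (fun m _ _ =>
          div_nonneg (fw_nonneg w m) (by positivity))
        intro m hm
        rw [mem_image] at hm
        obtain ⟨e, he, rfl⟩ := hm
        exact mk_mem e M (mem_filter.mp he).2
      · calc _ ≤ ∑ e ∈ (Bx w R).filter (fun e => ¬ mk w e ≤ M), (1:ℝ) / (mk w e : ℝ) := by
              refine sum_le_sum fun e _ => ?_
              exact div_le_div_of_nonneg_right (fw_le_one w _) (by positivity)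
          _ = ∑ m ∈ ((Bx w R).filter (fun e => ¬ mk w e ≤ M)).image (mk w), (1:ℝ) / (m:ℝ) :=
              (sum_image (f := fun m : ℕ => (1:ℝ) / (m:ℝ)) (g := mk w)
                (fun e _ e' _ h => mk_inj h)).symm
          _ ≤ _ := by
              refine sum_le_sum_of_subset_of_nonneg ?_ (fun m _ _ => by positivity)
              intro m hm
              rw [mem_image] at hm
              obtain ⟨e, he, rfl⟩ := hm
              rw [mem_filter] at he
              rw [mem_filter]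
              exact ⟨mk_mem e _ (hJ e he.1), by omega⟩
    have ht := hC M hM J
    linarith
  have hlim : Filter.Tendsto (fun R : ℕ => ∑ m ∈ Sm w M, fw w m / (m:ℝ) + w * ((2:ℝ) ^ R)⁻¹)
      Filter.atTop (nhds (∑ m ∈ Sm w M, fw w m / (m:ℝ) + w * 0)) := by
    refine Filter.Tendsto.const_add _ (Filter.Tendsto.const_mul _ ?_)
    have := tendsto_pow_atTop_nhds_zero_of_lt_one (r := (1/2:ℝ)) (by norm_num) (by norm_num)
    refine this.congr fun R => ?_
    rw [one_div, inv_pow]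
  rw [mul_zero, add_zero] at hlim
  exact ge_of_tendsto' hlim key

/-! ### The logarithmic mass -/

theorem log_mk (e : PT w → ℕ) : Real.log (mk w e) = ∑ i : PT w, (e i : ℝ) * Real.log i := by
  have h2 : (mk w e : ℝ) = ∏ i : PT w, (i:ℝ) ^ e i := by
    unfold mk
    push_cast
    rfl
  rw [h2, Real.log_prod (fun i _ => pow_ne_zero _ (by exact_mod_cast (PT_prime i).ne_zero))]
  refine sum_congr rfl fun i _ => ?_
  rw [Real.log_pow]

theorem box_one (w R : ℕ) (hR : 1 ≤ R) (hR2 : (w:ℝ) * ((2:ℝ) ^ R)⁻¹ ≤ 1 / 2) (j : PT w) :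
    1 / (2 * (j:ℝ)) ≤ ∑ e ∈ Bx w R, (e j : ℝ) * (fw w (mk w e) / (mk w e : ℝ)) := by
  have h1 : ∀ e : PT w → ℕ, (e j : ℝ) * (fw w (mk w e) / (mk w e : ℝ)) =
      ∏ i : PT w, ((if i = j then (e i : ℝ) else 1) * hh i (e i)) := by
    intro e
    rw [fw_mk, prod_mul_distrib, prod_ite_eq']
    simp
  simp_rw [h1]
  unfold Bx
  rw [← prod_univ_sum (fun _ : PT w => range (R + 1))
    (fun i k => (if i = j then (k : ℝ) else 1) * hh i k)]
  rw [← mul_prod_erase univ _ (mem_univ j)]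
  have h2 : 1 / (j:ℝ) ≤ ∑ k ∈ range (R + 1), (if j = j then (k : ℝ) else 1) * hh j k := by
    have h3 : (if j = j then ((1:ℕ) : ℝ) else 1) * hh j 1 ≤
        ∑ k ∈ range (R + 1), (if j = j then (k : ℝ) else 1) * hh j k := by
      refine single_le_sum (f := fun k : ℕ => (if j = j then (k : ℝ) else 1) * hh j k)
        (fun k _ => ?_) (mem_range.mpr (by omega))
      exact mul_nonneg (by rw [if_pos rfl]; positivity) (hh_nonneg (PT_prime j) k)
    refine le_trans (le_of_eq ?_) h3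
    rw [if_pos rfl]
    unfold hh
    simp
  have h4 : 1 / 2 ≤ ∏ i ∈ univ.erase j, ∑ k ∈ range (R + 1),
      (if i = j then (k : ℝ) else 1) * hh i k := by
    have h5 := bern ((2:ℝ) ^ R)⁻¹ (by positivity)
      (inv_le_one_of_one_le₀ (one_le_pow₀ (by norm_num))) (univ.erase j)
      (fun i : PT w => ∑ k ∈ range (R + 1), (if i = j then (k : ℝ) else 1) * hh i k) ?_ w ?_
    · linarith
    · intro i hi
      rw [mem_erase] at hi
      simp only [if_neg hi.1, one_mul]
      exact sum_hh_ge (PT_prime i) R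
    · refine (card_le_univ _).trans ?_
      exact card_PT w
  have hj : (0:ℝ) < j := by exact_mod_cast (PT_prime j).pos
  calc 1 / (2 * (j:ℝ)) = 1 / (j:ℝ) * (1 / 2) := by field_simp
    _ ≤ _ := mul_le_mul h2 h4 (by norm_num) (le_trans (by positivity) h2)

theorem sum_recip_unbounded (C : ℝ) : ∃ w : ℕ, 2 ≤ w ∧ C ≤ ∑ p ∈ pr 0 w, (1:ℝ) / p := by
  have h2 := not_summable_one_div_on_primes
  rw [not_summable_iff_tendsto_nat_atTop_of_nonneg] at h2
  · obtain ⟨N, hN⟩ := (h2.eventually (Filter.eventually_ge_atTop C)).exists_forall_of_atTop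
    refine ⟨max N 2, le_max_right _ _, ?_⟩
    have h3 := hN (max N 2 + 1) (by have := le_max_left N 2; omega)
    refine h3.trans (le_of_eq ?_)
    rw [sum_indicator_eq_sum_filter]
    refine sum_congr ?_ fun _ _ => rfl
    ext p
    rw [mem_filter, mem_range, mem_pr]
    simp only [Set.mem_ofPred_eq]
    constructor
    · rintro ⟨ha, hb⟩
      exact ⟨⟨hb.pos, by omega⟩, hb⟩
    · rintro ⟨ha, hb⟩
      exact ⟨by omega, hb⟩
  · intro n
    exact Set.indicator_nonneg (fun _ _ => by positivity) n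

theorem log_mass (C : ℝ) : ∃ w : ℕ, 2 ≤ w ∧ ∃ M0 : ℕ, ∀ M : ℕ, M0 ≤ M →
    C ≤ ∑ m ∈ Sm w M, fw w m / m * Real.log m := by
  have hl2 : 0 < Real.log 2 := Real.log_pos (by norm_num)
  obtain ⟨w, hw2, hw⟩ := sum_recip_unbounded (2 * C / Real.log 2)
  refine ⟨w, hw2, ?_⟩
  obtain ⟨R, hR⟩ : ∃ R : ℕ, 1 ≤ R ∧ (w:ℝ) * ((2:ℝ) ^ R)⁻¹ ≤ 1 / 2 := by
    refine ⟨w + 1, by omega, ?_⟩
    have h1 : (w:ℝ) < 2 ^ w := by exact_mod_cast Nat.lt_two_pow_self
    rw [pow_succ, mul_inv, ← mul_assoc]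
    have h2 : (w:ℝ) * ((2:ℝ) ^ w)⁻¹ ≤ 1 := by
      rw [← div_eq_mul_inv, div_le_one (by positivity)]
      exact h1.le
    linarith
  refine ⟨∑ e ∈ Bx w R, mk w e, fun M hM => ?_⟩
  have h1 : ∑ e ∈ Bx w R, fw w (mk w e) / (mk w e : ℝ) * Real.log (mk w e) ≤
      ∑ m ∈ Sm w M, fw w m / m * Real.log m := by
    rw [← sum_image (f := fun m : ℕ => fw w m / (m:ℝ) * Real.log m) (g := mk w)
          (fun e _ e' _ h => mk_inj h)]
    refine sum_le_sum_of_subset_of_nonneg ?_ (fun m hm _ => ?_)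
    · intro m hm
      rw [mem_image] at hm
      obtain ⟨e, he, rfl⟩ := hm
      refine mk_mem e M (le_trans ?_ hM)
      exact single_le_sum (f := fun e => mk w e) (fun _ _ => Nat.zero_le _) he
    · refine mul_nonneg (div_nonneg (fw_nonneg w m) (by positivity)) (Real.log_nonneg ?_)
      exact_mod_cast (mem_Sm.mp hm).1.1
  refine le_trans ?_ h1
  have h2 : ∑ e ∈ Bx w R, fw w (mk w e) / (mk w e : ℝ) * Real.log (mk w e) =
      ∑ i : PT w, Real.log i *
        ∑ e ∈ Bx w R, (e i : ℝ) * (fw w (mk w e) / (mk w e : ℝ)) := by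
    simp_rw [log_mk, mul_sum]
    rw [sum_comm]
    refine sum_congr rfl fun i _ => sum_congr rfl fun e _ => ?_
    ring
  rw [h2]
  have h3 : ∑ i : PT w, Real.log 2 * (1 / (2 * (i:ℝ))) ≤ ∑ i : PT w, Real.log i *
        ∑ e ∈ Bx w R, (e i : ℝ) * (fw w (mk w e) / (mk w e : ℝ)) := by
    refine sum_le_sum fun i _ => ?_
    refine mul_le_mul ?_ (box_one w R hR.1 hR.2 i) (by positivity) ?_
    · exact Real.log_le_log (by norm_num) (by exact_mod_cast (PT_prime i).two_le)
    · exact Real.log_nonneg (by exact_mod_cast (PT_prime i).one_lt.le)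
  refine le_trans ?_ h3
  have h4 : ∑ i : PT w, Real.log 2 * (1 / (2 * (i:ℝ))) =
      Real.log 2 / 2 * ∑ p ∈ pr 0 w, (1:ℝ) / p := by
    rw [← sum_coe_sort (pr 0 w) (fun p => (1:ℝ) / p), mul_sum]
    refine sum_congr rfl fun i _ => ?_
    have hi : (i:ℝ) ≠ 0 := by exact_mod_cast (PT_prime i).ne_zero
    field_simp
  rw [h4]
  have h5 : Real.log 2 / 2 * (2 * C / Real.log 2) ≤
      Real.log 2 / 2 * ∑ p ∈ pr 0 w, (1:ℝ) / p :=
    mul_le_mul_of_nonneg_left hw (by positivity)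
  refine le_trans (le_of_eq ?_) h5
  field_simp

end Pool.Agent.H85.Rho
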