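import Pool.Agent.H85.Rho.C
import Pool.Agent.H27.Rho.E3
import Pool.Agent.H74.Rho.B

/-!
# RHO, module D: many expected survivors
-/

set_option autoImplicit false

open Finset Real Filter

namespace Pool.Agent.H85.Rho

/-- Normalised prime counting function. -/
noncomputable def gg (t : ℝ) : ℝ := (Nat.primeCounting ⌊t⌋₊ : ℝ) * Real.log t / t

theorem gg_nonneg (t : ℝ) (ht : 1 ≤ t) : 0 ≤ gg t :=
  div_nonneg (mul_nonneg (by positivity) (Real.log_nonneg ht)) (by linarith)

theorem gg_le (t : ℝ) (ht : 1 ≤ t) : gg t ≤ 5 := by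
  rcases lt_or_ge t 2 with h | h
  · have h1 : ⌊t⌋₊ ≤ 1 := by
      have := (Nat.floor_lt (by linarith : (0:ℝ) ≤ t)).mpr (by exact_mod_cast h : t < ((2:ℕ):ℝ))
      omega
    have h2 : Nat.primeCounting ⌊t⌋₊ = 0 := by
      have h3 : Nat.primeCounting ⌊t⌋₊ ≤ Nat.primeCounting 1 := Nat.monotone_primeCounting h1
      have h4 : Nat.primeCounting 1 = 0 := by decide
      omega
    unfold gg
    rw [h2]
    simp
  · have h1 := pi_le_five h
    have hl : 0 < Real.log t := Real.log_pos (by linarith)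
    unfold gg
    rw [div_le_iff₀ (by linarith)]
    rw [le_div_iff₀ hl] at h1
    exact h1

theorem gg_ge (t : ℝ) (ht : 100 ≤ t) : 1 / 4 ≤ gg t := by
  have h1 := Chebyshev.pi_ge' (x := t) (by linarith)
  have hl : 0 < Real.log t := Real.log_pos (by linarith)
  rw [div_le_iff₀ hl] at h1
  have h2 : Real.log (t + 2) ≤ (t + 2) / 10 + 10 := by
    have hs0 : 0 < Real.sqrt (t + 2) := Real.sqrt_pos.2 (by linarith)
    have hss : Real.sqrt (t + 2) * Real.sqrt (t + 2) = t + 2 := Real.mul_self_sqrt (by linarith)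
    have h3 : Real.log (Real.sqrt (t + 2)) ≤ Real.sqrt (t + 2) - 1 :=
      Real.log_le_sub_one_of_pos hs0
    rw [Real.log_sqrt (by linarith)] at h3
    nlinarith [sq_nonneg (Real.sqrt (t + 2) - 10)]
  have h4 := Real.log_two_gt_d9
  unfold gg
  rw [le_div_iff₀ (by linarith)]
  nlinarith

theorem pi_eq_gg (t : ℝ) (ht : 1 < t) :
    (Nat.primeCounting ⌊t⌋₊ : ℝ) = gg t * t / Real.log t := by
  have hl : Real.log t ≠ 0 := (Real.log_pos ht).ne'
  have ht0 : t ≠ 0 := by linarith
  unfold gg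
  field_simp

theorem tend_l : Tendsto (fun n : ℕ => Real.log (n:ℝ)) atTop atTop :=
  Real.tendsto_log_atTop.comp tendsto_natCast_atTop_atTop

theorem tend_ll : Tendsto (fun n : ℕ => Real.log (Real.log (n:ℝ))) atTop atTop :=
  Real.tendsto_log_atTop.comp tend_l

theorem tend_u : Tendsto (fun n : ℕ => (Real.log (Real.log (n:ℝ))) ^ (1 / 4 : ℝ)) atTop atTop :=
  (tendsto_rpow_atTop (by norm_num : (0:ℝ) < 1 / 4)).comp tend_ll

/-- All the facts needed for large `n`. -/
theorem large (w : ℕ) (K : ℝ) (hK : 0 ≤ K) (M0 : ℕ) : ∃ N0 : ℕ, ∀ n : ℕ, N0 ≤ n →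
    100 ≤ n ∧ 1 ≤ Real.log n ∧ 2 ≤ TT n ∧ 0 < Real.log (TT n) ∧
    Real.log (TT n) ≤ Real.log n / 4 ∧ 4 ≤ Real.log n ∧ M0 ≤ MM n ∧ 2 ≤ MM n ∧
    K * ((Real.log (TT n)) ^ w *
      (Real.exp ((Real.log (Real.log n)) ^ (1 / 4 : ℝ)))⁻¹) ≤ 1 := by
  have e1 := tend_ll.eventually_ge_atTop 1
  have e2 := tend_l.eventually_ge_atTop (max 256 (M0 + 2))
  have e3 : Tendsto (fun u : ℝ => K * 2 ^ w * (u ^ (4 * w) * Real.exp (-u))) atTop (nhds 0) := by
    have := (Real.tendsto_pow_mul_exp_neg_atTop_nhds_zero (4 * w)).const_mul (K * 2 ^ w)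
    rwa [mul_zero] at this
  have e4 := (e3.comp tend_u).eventually_le_const (show (0:ℝ) < 1 by norm_num)
  obtain ⟨N0, hN0⟩ := ((e1.and (e2.and e4)).and (eventually_ge_atTop 100)).exists_forall_of_atTop
  refine ⟨N0, fun n hn => ?_⟩
  obtain ⟨⟨h1, h2, h4⟩, h5⟩ := hN0 n hn
  set l := Real.log (n:ℝ) with hl
  set ll := Real.log l with hll
  set u := ll ^ (1 / 4 : ℝ) with hu
  simp only [Function.comp] at h4
  have hl256 : 256 ≤ l := (le_max_left _ _).trans h2
  have hlM : (M0:ℝ) + 2 ≤ l := (le_max_right _ _).trans h2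
  have hu0 : 0 ≤ u := Real.rpow_nonneg (by linarith) _
  have hu4 : u ^ 4 = ll := by
    rw [hu, ← Real.rpow_natCast, ← Real.rpow_mul (by linarith)]
    norm_num
  have hull : u ≤ ll := by
    calc u ≤ ll ^ (1:ℝ) := Real.rpow_le_rpow_of_exponent_le h1 (by norm_num)
      _ = ll := Real.rpow_one _
  have hexp1 : 1 ≤ Real.exp u := Real.one_le_exp hu0
  have hTT : TT (n:ℝ) = l * Real.exp u := rfl
  have hTTl : l ≤ TT (n:ℝ) := by
    rw [hTT]
    nlinarith
  have hlogTT : Real.log (TT (n:ℝ)) = ll + u := by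
    rw [hTT, Real.log_mul (by linarith) (Real.exp_pos _).ne', Real.log_exp]
  have hll8 : ll ≤ l / 8 := by
    have hs0 : 0 < Real.sqrt l := Real.sqrt_pos.2 (by linarith)
    have hss : Real.sqrt l * Real.sqrt l = l := Real.mul_self_sqrt (by linarith)
    have h3 : Real.log (Real.sqrt l) ≤ Real.sqrt l - 1 := Real.log_le_sub_one_of_pos hs0
    rw [Real.log_sqrt (by linarith)] at h3
    have h16 : 16 ≤ Real.sqrt l := Real.le_sqrt_of_sq_le (by linarith)
    nlinarith
  refine ⟨h5, by linarith, by linarith, by rw [hlogTT]; linarith, by rw [hlogTT]; linarith,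
    by linarith, ?_, ?_, ?_⟩
  · unfold MM
    exact Nat.le_floor (by linarith)
  · unfold MM
    exact Nat.le_floor (by push_cast; linarith)
  · refine le_trans ?_ h4
    rw [hlogTT, ← Real.exp_neg]
    have h6 : (ll + u) ^ w ≤ 2 ^ w * u ^ (4 * w) := by
      rw [pow_mul, hu4, ← mul_pow]
      exact pow_le_pow_left₀ (by linarith) (by linarith) w
    calc K * ((ll + u) ^ w * Real.exp (-u)) ≤ K * ((2 ^ w * u ^ (4 * w)) * Real.exp (-u)) :=
          mul_le_mul_of_nonneg_left (mul_le_mul_of_nonneg_right h6 (Real.exp_pos _).le) hK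
      _ = K * 2 ^ w * (u ^ (4 * w) * Real.exp (-u)) := by ring

/-- The bound for a single smooth number. -/
theorem single (y : ℝ) (hy : 1 < y) (m : ℕ) (hm : 1 ≤ m)
    (hml : Real.log m ≤ Real.log y / 4) (hG : 1 / 4 ≤ gg y)
    (hd : gg y - 1 / 16 * Real.log m / Real.log y ≤ gg (y / m)) :
    y / m / Real.log y * (gg y + Real.log m / Real.log y / 8) ≤
      (Nat.primeCounting (⌊y⌋₊ / m) : ℝ) := by
  have hL : 0 < Real.log y := Real.log_pos hy
  have hm' : (1:ℝ) ≤ m := by exact_mod_cast hm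
  have hlm : 0 ≤ Real.log m := Real.log_nonneg hm'
  have hmy : 1 < y / m := by
    rw [lt_div_iff₀ (by linarith), one_mul]
    by_contra h
    push Not at h
    have := Real.log_le_log (by linarith) h
    linarith
  have h1 : (Nat.primeCounting (⌊y⌋₊ / m) : ℝ) = gg (y / m) * (y / m) / Real.log (y / m) := by
    rw [← Nat.floor_div_natCast, pi_eq_gg _ hmy]
  rw [h1, Real.log_div (by linarith) (by linarith)]
  set L := Real.log y
  set x := Real.log m / L with hx
  have hxm : Real.log m = x * L := by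
    rw [hx]
    field_simp
  have hx0 : 0 ≤ x := div_nonneg hlm hL.le
  have hx1 : x ≤ 1 / 4 := by
    rw [hx, div_le_iff₀ hL]
    linarith
  have hd' : gg y - x / 16 ≤ gg (y / m) := by
    refine le_trans (le_of_eq ?_) hd
    rw [hx]
    ring
  rw [hxm]
  have h2 : L - x * L = L * (1 - x) := by ring
  rw [h2, le_div_iff₀ (mul_pos hL (by linarith))]
  have hym : 0 < y / m := by linarith
  have h3 : (gg y + x / 8) * (1 - x) ≤ gg (y / m) := by
    refine le_trans ?_ hd'
    nlinarith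
  calc y / m / L * (gg y + x / 8) * (L * (1 - x)) = (y / m) * ((gg y + x / 8) * (1 - x)) := by
        field_simp
    _ ≤ (y / m) * gg (y / m) := mul_le_mul_of_nonneg_left h3 hym.le
    _ = gg (y / m) * (y / m) := by ring

/-- **Module D.** -/
theorem many_survivors (C : ℝ) : ∃ w : ℕ, 2 ≤ w ∧ ∀ Y : ℕ, ∃ y : ℕ, Y ≤ y ∧
    (Nat.primeCounting y : ℝ) + C * y / (Real.log y) ^ 2 ≤
      ∑ m ∈ Sm w (MM y), fw w m *
        ((Nat.primeCounting (y / m) : ℝ) - Nat.primeCounting (PP y)) := by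
  obtain ⟨w, hw2, M0, hM0⟩ := log_mass (32 * (|C| + 1))
  obtain ⟨C1, hC1, hmass⟩ := mass_lower w
  obtain ⟨C2, hC2, hcard⟩ := Sm_card w
  obtain ⟨N0, hN0⟩ := large w (20 * C1 + 10 * C2) (by positivity) M0
  refine ⟨w, hw2, fun Y => ?_⟩
  obtain ⟨y, hyY, hy3, hy⟩ := descent gg 5 gg_nonneg gg_le (1 / 16) (by norm_num)
    ((max Y N0 : ℕ) : ℝ)
  set n := ⌊y⌋₊ with hn
  have hnY : max Y N0 ≤ n := Nat.le_floor hyY
  obtain ⟨h100, hl1, hTT2, hlTT0, hlTT, hl4, hMM0, hMM2, hQ⟩ := hN0 n ((le_max_right _ _).trans hnY)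
  refine ⟨n, (le_max_left _ _).trans hnY, ?_⟩
  have hn100 : (100:ℝ) ≤ n := by exact_mod_cast h100
  have hny : (n:ℝ) ≤ y := Nat.floor_le (by linarith)
  have hyn : y < n + 1 := Nat.lt_floor_add_one y
  set l := Real.log (n:ℝ) with hl
  set L := Real.log y with hL
  have hlL : l ≤ L := Real.log_le_log (by linarith) hny
  have hL2l : L ≤ 2 * l := by
    have h1 : L ≤ Real.log (n * n) := Real.log_le_log (by linarith) (by nlinarith)
    rw [Real.log_mul (by linarith) (by linarith)] at h1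
    linarith
  have hG : 1 / 4 ≤ gg y := gg_ge y (by linarith)
  have hG5 : gg y ≤ 5 := gg_le y (by linarith)
  have hpin : (Nat.primeCounting n : ℝ) = gg y * y / L := pi_eq_gg y (by linarith)
  set M := MM n with hM
  have hMTT : (M:ℝ) ≤ TT n := Nat.floor_le (by linarith)
  have hTTM : TT (n:ℝ) < M + 1 := Nat.lt_floor_add_one _
  have hM2 : (2:ℝ) ≤ M := by exact_mod_cast hMM2
  have hlM : Real.log M ≤ Real.log (TT n) := Real.log_le_log (by linarith) hMTT
  have hlM0 : 0 ≤ Real.log M := Real.log_nonneg (by linarith)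
  -- the sum over smooth numbers
  have hsum : y * gg y / L * (∑ m ∈ Sm w M, fw w m / m) +
      y / (8 * L ^ 2) * (∑ m ∈ Sm w M, fw w m / m * Real.log m) ≤
      ∑ m ∈ Sm w M, fw w m * (Nat.primeCounting (n / m) : ℝ) := by
    rw [mul_sum, mul_sum, ← sum_add_distrib]
    refine sum_le_sum fun m hm => ?_
    have hm' := mem_Sm.mp hm
    have hm1 : (1:ℝ) ≤ m := by exact_mod_cast hm'.1.1
    have hmM : (m:ℝ) ≤ M := by exact_mod_cast hm'.1.2
    have hlm : Real.log m ≤ L / 4 := by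
      have h1 : Real.log m ≤ Real.log M := Real.log_le_log (by linarith) hmM
      linarith
    have hsq : (m:ℝ) ≤ Real.sqrt y := by
      rw [← Real.log_le_log_iff (by linarith) (Real.sqrt_pos.2 (by linarith)),
        Real.log_sqrt (by linarith)]
      linarith
    have h2 := single y (by linarith) m hm'.1.1 hlm hG (hy m hm'.1.1 hsq)
    rw [← hL] at h2
    have h3 := mul_le_mul_of_nonneg_left h2 (fw_nonneg w m)
    refine le_trans (le_of_eq ?_) h3
    have hm0 : (m:ℝ) ≠ 0 := by linarith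
    have hL0 : L ≠ 0 := by linarith
    field_simp
  have hmass' := hmass M hMM2
  have hlog' := hM0 M hMM0
  have hcard' := hcard M hMM2
  have hL0 : 0 < L := by linarith
  -- main terms
  have hmain : (Nat.primeCounting n : ℝ) - y * gg y / L * (C1 * (Real.log M) ^ w / M) +
      y / (8 * L ^ 2) * (32 * (|C| + 1)) ≤
      ∑ m ∈ Sm w M, fw w m * (Nat.primeCounting (n / m) : ℝ) := by
    refine le_trans ?_ hsum
    have h1 : 0 ≤ y * gg y / L := by
      apply div_nonneg _ hL0.le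
      nlinarith
    have h2 : 0 ≤ y / (8 * L ^ 2) := by positivity
    have h3 := mul_le_mul_of_nonneg_left hmass' h1
    have h4 := mul_le_mul_of_nonneg_left hlog' h2
    rw [hpin]
    have h5 : gg y * y / L = y * gg y / L := by ring
    rw [h5]
    linarith
  -- the loss
  have hloss : ∑ m ∈ Sm w M, fw w m * (Nat.primeCounting (PP n) : ℝ) ≤
      C2 * (Real.log M) ^ w * (Nat.primeCounting (PP n) : ℝ) := by
    rw [← sum_mul]
    refine mul_le_mul_of_nonneg_right ?_ (by positivity)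
    calc ∑ m ∈ Sm w M, fw w m ≤ ∑ m ∈ Sm w M, (1:ℝ) := sum_le_sum fun m _ => fw_le_one w m
      _ = ((Sm w M).card : ℝ) := by simp
      _ ≤ _ := hcard'
  set eu := Real.exp ((Real.log (Real.log (n:ℝ))) ^ (1 / 4 : ℝ)) with heu
  have heu0 : 0 < eu := Real.exp_pos _
  have hTTeq : TT (n:ℝ) = l * eu := rfl
  have hl0 : 0 < l := by linarith
  have hTT0 : 0 < TT (n:ℝ) := by linarith
  have hpow : (Real.log M) ^ w ≤ (Real.log (TT n)) ^ w := pow_le_pow_left₀ hlM0 hlM w
  have hQ0 : 0 ≤ (Real.log (TT (n:ℝ))) ^ w := pow_nonneg hlTT0.le w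
  -- first error
  have hE1 : y * gg y / L * (C1 * (Real.log M) ^ w / M) ≤
      n / l ^ 2 * (20 * C1 * ((Real.log (TT n)) ^ w * eu⁻¹)) := by
    have h1 : y * gg y / L ≤ 10 * n / l := by
      calc y * gg y / L ≤ y * gg y / l :=
            div_le_div_of_nonneg_left (by nlinarith) hl0 hlL
        _ ≤ 10 * n / l := by
            apply div_le_div_of_nonneg_right _ hl0.le
            nlinarith
    have h2 : C1 * (Real.log M) ^ w / M ≤ C1 * (Real.log (TT n)) ^ w * (2 / (l * eu)) := by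
      have h3 : (1:ℝ) / M ≤ 2 / (l * eu) := by
        rw [← hTTeq, div_le_div_iff₀ (by linarith) hTT0]
        linarith
      calc C1 * (Real.log M) ^ w / M = C1 * (Real.log M) ^ w * (1 / M) := by ring
        _ ≤ C1 * (Real.log (TT n)) ^ w * (2 / (l * eu)) :=
            mul_le_mul (mul_le_mul_of_nonneg_left hpow hC1.le) h3 (by positivity)
              (mul_nonneg hC1.le hQ0)
    calc y * gg y / L * (C1 * (Real.log M) ^ w / M)
        ≤ (10 * n / l) * (C1 * (Real.log (TT n)) ^ w * (2 / (l * eu))) := by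
          refine mul_le_mul h1 h2 ?_ (by positivity)
          exact div_nonneg (mul_nonneg hC1.le (pow_nonneg hlM0 _)) (by linarith)
      _ = n / l ^ 2 * (20 * C1 * ((Real.log (TT n)) ^ w * eu⁻¹)) := by
          field_simp
          ring
  -- second error
  have hE2 : C2 * (Real.log M) ^ w * (Nat.primeCounting (PP n) : ℝ) ≤
      n / l ^ 2 * (10 * C2 * ((Real.log (TT n)) ^ w * eu⁻¹)) := by
    have hX : Real.log ((n:ℝ) / TT n) = l - Real.log (TT n) :=
      Real.log_div (by linarith) hTT0.ne'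
    have hX2 : (2:ℝ) ≤ (n:ℝ) / TT n := by
      rw [← Real.log_le_log_iff (by norm_num) (div_pos (by linarith) hTT0), hX]
      have := Real.log_two_lt_d9
      linarith
    have h1 := pi_le_five hX2
    have h2 : (Nat.primeCounting (PP n) : ℝ) ≤ 10 * n / (l ^ 2 * eu) := by
      refine h1.trans ?_
      rw [hX]
      calc 5 * ((n:ℝ) / TT n) / (l - Real.log (TT n)) ≤ 5 * ((n:ℝ) / TT n) / (l / 2) :=
            div_le_div_of_nonneg_left (by positivity) (by linarith) (by linarith)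
        _ = 10 * n / (l ^ 2 * eu) := by
            rw [hTTeq]
            field_simp
            ring
    calc C2 * (Real.log M) ^ w * (Nat.primeCounting (PP n) : ℝ)
        ≤ C2 * (Real.log (TT n)) ^ w * (10 * n / (l ^ 2 * eu)) :=
          mul_le_mul (mul_le_mul_of_nonneg_left hpow hC2.le) h2 (by positivity)
            (mul_nonneg hC2.le hQ0)
      _ = n / l ^ 2 * (10 * C2 * ((Real.log (TT n)) ^ w * eu⁻¹)) := by
          field_simp
  -- the gain
  have hgain : n / l ^ 2 * (|C| + 1) ≤ y / (8 * L ^ 2) * (32 * (|C| + 1)) := by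
    have h1 : L ^ 2 ≤ 4 * l ^ 2 := by nlinarith
    have h2 : (n:ℝ) / l ^ 2 ≤ 4 * (y / L ^ 2) := by
      rw [← mul_div_assoc, div_le_div_iff₀ (by positivity) (by positivity)]
      nlinarith [mul_le_mul hny h1 (by positivity) (by linarith)]
    calc n / l ^ 2 * (|C| + 1) ≤ 4 * (y / L ^ 2) * (|C| + 1) :=
          mul_le_mul_of_nonneg_right h2 (by positivity)
      _ = y / (8 * L ^ 2) * (32 * (|C| + 1)) := by
          field_simp
          ring
  have herr : n / l ^ 2 * (20 * C1 * ((Real.log (TT n)) ^ w * eu⁻¹)) +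
      n / l ^ 2 * (10 * C2 * ((Real.log (TT n)) ^ w * eu⁻¹)) ≤ n / l ^ 2 * 1 := by
    rw [← mul_add]
    refine mul_le_mul_of_nonneg_left ?_ (by positivity)
    refine le_trans (le_of_eq ?_) hQ
    ring
  have hC : C * n / l ^ 2 ≤ n / l ^ 2 * |C| := by
    have h1 : C * n / l ^ 2 = n / l ^ 2 * C := by ring
    rw [h1]
    exact mul_le_mul_of_nonneg_left (le_abs_self C) (by positivity)
  have hfinal : ∑ m ∈ Sm w M, fw w m *
      ((Nat.primeCounting (n / m) : ℝ) - Nat.primeCounting (PP n)) =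
      ∑ m ∈ Sm w M, fw w m * (Nat.primeCounting (n / m) : ℝ) -
      ∑ m ∈ Sm w M, fw w m * (Nat.primeCounting (PP n) : ℝ) := by
    rw [← sum_sub_distrib]
    refine sum_congr rfl fun m _ => ?_
    ring
  rw [hfinal]
  have h9 : n / l ^ 2 * (|C| + 1) = n / l ^ 2 * |C| + n / l ^ 2 * 1 := by ring
  linarith

end Pool.Agent.H85.Rho
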