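import Pool.Agent.H85.Rho.Defs

/-!
# RHO, module A: choosing nonzero classes by averaging
-/

set_option autoImplicit false

open Finset Real

namespace Pool.Agent.H85.Rho

theorem exists_classes_aux (S : Finset ℕ) (hS : ∀ p ∈ S, p.Prime) :
    ∀ N : Finset ℕ, ∃ a : ℕ → ℕ, (∀ p ∈ S, ¬ p ∣ a p) ∧
      ∑ n ∈ N, ∏ p ∈ S.filter (fun p => ¬ p ∣ n), (((p : ℝ) - 2) / (p - 1)) ≤
        ((N.filter (fun n => ∀ p ∈ S, ¬ n ≡ a p [MOD p])).card : ℝ) := by
  induction S using Finset.induction_on with
  | empty =>
    intro N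
    refine ⟨fun _ => 0, by simp, ?_⟩
    simp
  | insert p S hp ih =>
    intro N
    have hpp : p.Prime := hS p (mem_insert_self _ _)
    have ih' := ih (fun q hq => hS q (mem_insert_of_mem hq))
    set W : ℕ → ℝ := fun n => ∏ q ∈ S.filter (fun q => ¬ q ∣ n), (((q : ℝ) - 2) / (q - 1)) with hW
    have hp1 : (0:ℝ) < (p:ℝ) - 1 := by
      have : (2:ℝ) ≤ p := by exact_mod_cast hpp.two_le
      linarith
    have hWi : ∀ n, (∏ q ∈ (insert p S).filter (fun q => ¬ q ∣ n), (((q : ℝ) - 2) / (q - 1))) *
        ((p:ℝ) - 1) = W n * (((Finset.Icc 1 (p - 1)).filter (fun c => ¬ n ≡ c [MOD p])).card : ℝ) := by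
      intro n
      by_cases hpn : p ∣ n
      · have e1 : (insert p S).filter (fun q => ¬ q ∣ n) = S.filter (fun q => ¬ q ∣ n) := by
          rw [filter_insert, if_neg (by simpa using hpn)]
        have e2 : (Finset.Icc 1 (p - 1)).filter (fun c => ¬ n ≡ c [MOD p]) =
            Finset.Icc 1 (p - 1) := by
          rw [filter_eq_self]
          intro c hc hcn
          rw [Finset.mem_Icc] at hc
          have h1 : c ≡ 0 [MOD p] := hcn.symm.trans ((Nat.modEq_zero_iff_dvd).mpr hpn)
          have h2 := (Nat.modEq_zero_iff_dvd).mp h1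
          have h3 := Nat.le_of_dvd (by omega) h2
          have := hpp.two_le
          omega
        rw [e1, e2, Nat.card_Icc]
        have : ((p - 1 + 1 - 1 : ℕ) : ℝ) = (p:ℝ) - 1 := by
          have := hpp.two_le
          have h : p - 1 + 1 - 1 = p - 1 := by omega
          rw [h, Nat.cast_sub (by omega), Nat.cast_one]
        rw [this]
      · have e1 : (insert p S).filter (fun q => ¬ q ∣ n) = insert p (S.filter (fun q => ¬ q ∣ n)) := by
          rw [filter_insert, if_pos hpn]
        have hmod : n % p ∈ Finset.Icc 1 (p - 1) := by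
          rw [Finset.mem_Icc]
          have h1 : n % p ≠ 0 := fun h => hpn (Nat.dvd_of_mod_eq_zero h)
          have h2 := Nat.mod_lt n hpp.pos
          omega
        have e2 : (Finset.Icc 1 (p - 1)).filter (fun c => ¬ n ≡ c [MOD p]) =
            (Finset.Icc 1 (p - 1)).erase (n % p) := by
          ext c
          rw [mem_filter, mem_erase, Finset.mem_Icc, Nat.ModEq]
          constructor
          · rintro ⟨h1, h2⟩
            refine ⟨fun h => h2 ?_, h1⟩
            rw [h, Nat.mod_mod]
          · rintro ⟨h1, h2⟩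
            refine ⟨h2, fun h => h1 ?_⟩
            rw [h, Nat.mod_eq_of_lt]
            have := hpp.two_le
            omega
        rw [e1, prod_insert (by simp [hp]), e2, card_erase_of_mem hmod, Nat.card_Icc]
        have : ((p - 1 + 1 - 1 - 1 : ℕ) : ℝ) = (p:ℝ) - 2 := by
          have := hpp.two_le
          have h : p - 1 + 1 - 1 - 1 = p - 2 := by omega
          rw [h, Nat.cast_sub (by omega), Nat.cast_ofNat]
        rw [this]
        field_simp
        ring
    -- averaging
    have hsum : ∑ c ∈ Finset.Icc 1 (p - 1),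
        (∑ n ∈ N, ∏ q ∈ (insert p S).filter (fun q => ¬ q ∣ n), (((q : ℝ) - 2) / (q - 1))) =
        ∑ c ∈ Finset.Icc 1 (p - 1), ∑ n ∈ N.filter (fun n => ¬ n ≡ c [MOD p]), W n := by
      rw [sum_const, Nat.card_Icc, nsmul_eq_mul]
      have h1 : ((p - 1 + 1 - 1 : ℕ) : ℝ) = (p:ℝ) - 1 := by
        have := hpp.two_le
        have h : p - 1 + 1 - 1 = p - 1 := by omega
        rw [h, Nat.cast_sub (by omega), Nat.cast_one]
      rw [h1, mul_comm, sum_mul]
      simp_rw [hWi, sum_filter]
      rw [sum_comm]
      refine sum_congr rfl fun n _ => ?_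
      rw [← sum_filter, sum_const, nsmul_eq_mul, mul_comm]
    have hne : (Finset.Icc 1 (p - 1)).Nonempty := by
      rw [Finset.nonempty_Icc]
      have := hpp.two_le
      omega
    obtain ⟨c, hc, hcle⟩ := exists_le_of_sum_le hne hsum.le
    rw [Finset.mem_Icc] at hc
    obtain ⟨a, ha1, ha2⟩ := ih' (N.filter (fun n => ¬ n ≡ c [MOD p]))
    refine ⟨Function.update a p c, ?_, ?_⟩
    · intro q hq
      rw [mem_insert] at hq
      by_cases hqp : q = p
      · subst hqp
        rw [Function.update_self]
        intro hd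
        have h3 := Nat.le_of_dvd (by omega) hd
        have := hpp.two_le
        omega
      · rw [Function.update_of_ne hqp]
        exact ha1 q (by tauto)
    · refine hcle.trans (ha2.trans (le_of_eq ?_))
      rw [filter_filter]
      congr 2
      refine filter_congr fun n _ => ?_
      rw [forall_mem_insert, Function.update_self]
      refine and_congr_right fun _ => ?_
      refine forall₂_congr fun q hq => ?_
      have hqp : q ≠ p := fun h => hp (h ▸ hq)
      rw [Function.update_of_ne hqp]

/-- **Module A.** -/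
theorem exists_classes (N : Finset ℕ) (w : ℕ) :
    ∃ a : ℕ → ℕ, (∀ p ∈ pr 0 w, ¬ p ∣ a p) ∧
      ∑ n ∈ N, fw w n ≤
        ((N.filter (fun n => ∀ p ∈ pr 0 w, ¬ n ≡ a p [MOD p])).card : ℝ) :=
  exists_classes_aux (pr 0 w) (fun _ hp => (mem_pr.mp hp).2) N

end Pool.Agent.H85.Rho
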